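import Pool.Agent.Q247.SY.Stm

/-!
Project SY (helper247), jobs ROU and LOC.
-/

set_option autoImplicit false
open scoped NumberField
open NumberField Polynomial

namespace Pool.Agent.Q148.SY

lemma irr_XM (K : Type) [Field K] [NumberField K] (M : ℕ) (hM : 0 < M) :
    ∃ c : 𝓞 K, c ≠ 0 ∧ Irreducible (X ^ M - C (c : K) : K[X]) := by
  obtain ⟨P, hP⟩ := Ideal.exists_maximal (𝓞 K)
  have hPb : P ≠ ⊥ := Ring.ne_bot_of_isMaximal_of_not_isField hP (RingOfIntegers.not_isField K)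
  obtain ⟨c, hc1, hc2⟩ := Ideal.exists_mem_pow_notMem_pow_succ P hPb hP.ne_top 1
  rw [pow_one] at hc1
  refine ⟨c, fun h => hc2 (h ▸ Ideal.zero_mem _), ?_⟩
  set f : (𝓞 K)[X] := X ^ M - C c with hf
  have hmon : f.Monic := monic_X_pow_sub_C c hM.ne'
  have hdeg : f.natDegree = M := natDegree_X_pow_sub_C
  have heis : f.IsEisensteinAt P := by
    refine ⟨?_, ?_, ?_⟩
    · rw [hmon.leadingCoeff]
      exact fun h => hP.ne_top ((Ideal.eq_top_iff_one P).2 h)
    · intro n hn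
      rw [hdeg] at hn
      rw [hf, coeff_sub, coeff_X_pow, if_neg hn.ne, zero_sub, coeff_C]
      split_ifs
      · exact P.neg_mem hc1
      · rw [neg_zero]
        exact P.zero_mem
    · rw [hf, coeff_sub, coeff_X_pow, if_neg hM.ne, zero_sub, coeff_C_zero]
      intro h
      exact hc2 ((Ideal.neg_mem_iff _).1 h)
  have hirr : Irreducible f := heis.irreducible hP.isPrime hmon.isPrimitive (by rw [hdeg]; exact hM)
  have h2 := (hmon.irreducible_iff_irreducible_map_fraction_map (K := K)).1 hirr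
  have h3 : f.map (algebraMap (𝓞 K) K) = X ^ M - C (c : K) := by
    rw [hf, Polynomial.map_sub, Polynomial.map_pow, map_X, map_C]
  rwa [h3] at h2

theorem t_ROU : Q247.SY.S_ROU := by
  intro K _ _ n a ha
  obtain ⟨ω, hω, hsum⟩ := ha
  choose m hm0 hm using hω
  set M : ℕ := ∏ i, m i with hM
  have hM0 : 0 < M := Finset.prod_pos fun i _ => hm0 i
  have hωM : ∀ i, ω i ^ M = 1 := by
    intro i
    obtain ⟨k, hk⟩ : m i ∣ M := Finset.dvd_prod_of_mem m (Finset.mem_univ i)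
    rw [hk, pow_mul, hm i, one_pow]
  obtain ⟨c, hc, hirr⟩ := irr_XM K M hM0
  obtain ⟨β, hβ⟩ := IsAlgClosed.exists_pow_nat_eq (algebraMap K (AlgebraicClosure K) (c : K)) hM0
  have hcK : (c : K) ≠ 0 := fun h => hc (by
    exact_mod_cast h)
  have hβ0 : β ≠ 0 := by
    intro h
    rw [h, zero_pow hM0.ne'] at hβ
    exact hcK ((map_eq_zero (algebraMap K (AlgebraicClosure K))).1 hβ.symm)
  have hmin : ∀ i, minpoly K (ω i * β) = X ^ M - C (c : K) := by
    intro i
    refine (minpoly.eq_of_irreducible_of_monic hirr ?_ (monic_X_pow_sub_C _ hM0.ne')).symm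
    rw [map_sub, map_pow, aeval_X, aeval_C, mul_pow, hωM, one_mul, hβ, sub_self]
  refine ⟨fun i => ω i * β, fun i => mul_ne_zero ?_ hβ0, fun i j => by rw [hmin, hmin], ?_⟩
  · intro h
    have := hωM i
    rw [h, zero_pow hM0.ne'] at this
    exact zero_ne_one this
  · have : ∑ i, algebraMap K (AlgebraicClosure K) (a i : K) * (ω i * β) =
        (∑ i, algebraMap K (AlgebraicClosure K) (a i : K) * ω i) * β := by
      rw [Finset.sum_mul]
      exact Finset.sum_congr rfl fun i _ => by ring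
    rw [this, hsum, zero_mul]

lemma loc_key {R : Type} [CommRing R] [IsDedekindDomain R]
    (v : IsDedekindDomain.HeightOneSpectrum R) (x y : R) (hy : y ≠ 0)
    (h : v.intValuation x ≤ v.intValuation y) : ∃ s, s ∉ v.asIdeal ∧ ∃ t, s * x = t * y := by
  have hPprime : Prime v.asIdeal := (Ideal.prime_iff_isPrime v.ne_bot).2 v.isPrime
  have hsp : Ideal.span {y} ≠ (⊥ : Ideal R) := by
    rw [Ne, Ideal.span_singleton_eq_bot]
    exact hy
  obtain ⟨B, hB, hPB⟩ :=
    (FiniteMultiplicity.of_prime_left hPprime hsp).exists_eq_pow_mul_and_not_dvd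
  generalize multiplicity v.asIdeal (Ideal.span {y}) = N at hB
  have hajP : y ∈ v.asIdeal ^ N := by
    have h1 : y ∈ v.asIdeal ^ N * B := by
      rw [← hB]
      exact Ideal.mem_span_singleton_self y
    have h2 : v.asIdeal ^ N * B ≤ v.asIdeal ^ N := Ideal.mul_le_left
    exact h2 h1
  have haiP : x ∈ v.asIdeal ^ N := by
    have h1 := (v.intValuation_le_pow_iff_mem y N).2 hajP
    exact (v.intValuation_le_pow_iff_mem x N).1 (h.trans h1)
  have hBP : ¬ B ≤ v.asIdeal := fun h => hPB (Ideal.dvd_iff_le.2 h)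
  obtain ⟨s, hsB, hsP⟩ := SetLike.not_le_iff_exists.1 hBP
  refine ⟨s, hsP, ?_⟩
  have h1 : x * s ∈ v.asIdeal ^ N * B := Ideal.mul_mem_mul haiP hsB
  rw [← hB] at h1
  obtain ⟨t, ht⟩ := Ideal.mem_span_singleton'.1 h1
  exact ⟨t, by rw [ht, mul_comm]⟩

lemma val_zero {K : Type} [Field K] [NumberField K]
    (v : IsDedekindDomain.HeightOneSpectrum (𝓞 K)) (x y : 𝓞 K) (hy : y = 0)
    (h : v.valuation K (x : K) ≤ v.valuation K (y : K)) : x = 0 := by
  subst hy
  rw [IsDedekindDomain.HeightOneSpectrum.valuation_of_algebraMap,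
    IsDedekindDomain.HeightOneSpectrum.valuation_of_algebraMap, map_zero, le_zero_iff] at h
  by_contra hx
  exact v.intValuation_ne_zero x hx h

theorem t_LOC : Q247.SY.S_LOC := by
  intro K _ _ n a ha i
  by_contra hi
  set I : Ideal (𝓞 K) := Ideal.span (a '' {j | j ≠ i}) with hI
  have haI : ∀ j, j ≠ i → a j ∈ I := fun j hj => Ideal.subset_span ⟨j, hj, rfl⟩
  have hai : a i ≠ 0 := fun h => hi (h ▸ I.zero_mem)
  set J : Ideal (𝓞 K) := Submodule.colon I {a i} with hJ
  have hJm : ∀ s, s ∈ J ↔ s * a i ∈ I := fun s => by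
    rw [hJ, Submodule.mem_colon_singleton, smul_eq_mul]
  have hJtop : J ≠ ⊤ := by
    intro h
    apply hi
    have := (hJm 1).1 (h ▸ Submodule.mem_top)
    rwa [one_mul] at this
  obtain ⟨P, hP, hJP⟩ := Ideal.exists_le_maximal J hJtop
  obtain ⟨j₀, hj₀, haj₀⟩ : ∃ j, j ≠ i ∧ a j ≠ 0 := by
    obtain ⟨Q, hQ⟩ := Ideal.exists_maximal (𝓞 K)
    have hQb : Q ≠ ⊥ := Ring.ne_bot_of_isMaximal_of_not_isField hQ (RingOfIntegers.not_isField K)
    obtain ⟨j, hj, hv⟩ := ha ⟨Q, hQ.isPrime, hQb⟩ i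
    exact ⟨j, hj, fun h0 => hai (val_zero _ _ _ h0 hv)⟩
  have hPb : P ≠ ⊥ := by
    intro h
    have h1 : a j₀ ∈ J := (hJm _).2 (I.mul_mem_right _ (haI j₀ hj₀))
    have h2 := hJP h1
    rw [h, Submodule.mem_bot] at h2
    exact haj₀ h2
  obtain ⟨j, hj, hval⟩ := ha ⟨P, hP.isPrime, hPb⟩ i
  have haj : a j ≠ 0 := fun h0 => hai (val_zero _ _ _ h0 hval)
  rw [IsDedekindDomain.HeightOneSpectrum.valuation_of_algebraMap,
    IsDedekindDomain.HeightOneSpectrum.valuation_of_algebraMap] at hval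
  obtain ⟨s, hsP, t, ht⟩ := loc_key _ (a i) (a j) haj hval
  apply hsP
  apply hJP
  rw [hJm, ht]
  exact I.mul_mem_left _ (haI j hj)

end Pool.Agent.Q148.SY
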